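import Pool.Agent.Helper28.LV.StN
import Pool.Agent.Helper28.TL.Defs
import Pool.Agent.Helper4.TL.Eps

/-!
# Project TL, low levels: level `4p`, `a` odd (weights `2a+2` divisible by four): statements

`f` is a newform of level `4p`, `p` an odd prime, weight `2a+2`, `a` odd, root number `+1`, `L(1/2,f) = 0`. Coordinate `x = 2z`. The `p`-adic argument gives a symbol `Ψ` of level ONE twisted by the
sign `eps` (`Helper4/TL/Eps.lean`) with `κ Φ = u*Ψ - Ψ`, `κ ≠ 0` an integer. We show that then `F = ∑_s p^((a+1)s) f(p^s z)` is a cusp form of level `4` with the same eigenvalues as `f`: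
contradiction to `f` new. This is the analogue of `Helper28/LV/StN.lean`; the statements `NH`, `CA1`, ..., `CA4`, `EE`, `FF`, `bco` of that file are used unchanged.
-/

set_option autoImplicit false

open Pool.Agent.Helper14.CV (G0 Homog EqC act StFar)
open Pool.Agent.Helper28.WK
open Pool.Agent.Helper14.WK

namespace Pool.Agent.Helper79.TLN

open Pool.Agent.Helper28.LV
open Pool.Agent.Helper4.TL

/-- `Ψ` is a symbol of level one and weight `2a+2` twisted by `eps`, with `κ Φ_t(D) = p^(a-t) Ψ_t(uD) - Ψ_t(D)`. Compare `L1S`. -/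
structure L1SE {R : Type} [AddCommGroup R] (p a : ℕ) (κ : ℤ) (Φ Ψ : ℤ → ℤ → ℕ → R) : Prop where
  hom : ∀ i : ℕ, i ≤ 2 * a → Homog (cp Ψ i)
  inf : ∀ i : ℕ, i ≤ 2 * a → Ψ 1 0 i = 0
  eqv : ∀ α β γ δ : ℤ, α * δ - β * γ = 1 → ∀ i : ℕ, i ≤ 2 * a →
    EqC (act α β γ δ (cp Ψ i)) (eps α β γ δ • pr Ψ ((Polynomial.C α * Polynomial.X + Polynomial.C β) ^ i *
      (Polynomial.C γ * Polynomial.X + Polynomial.C δ) ^ (2 * a - i)))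
  rel : ∀ t : ℕ, t ≤ 2 * a → ∀ x y : ℤ, (x ≠ 0 ∨ y ≠ 0) →
    (κ * (p : ℤ) ^ t) • (Φ x y t - Φ 1 0 t) =
      ((p : ℤ) ^ a) • Ψ (p * x) y t - ((p : ℤ) ^ t) • Ψ x y t

/-- The system `F_D` of functions of a matrix belonging to `ψ`, with sign. Compare `FSys`. -/
def FSysE (p a : ℕ) (κ : ℤ) [Fact p.Prime] (Φ : ℤ → ℤ → ℕ → ℤ_[p])
    (F : ℤ → ℤ → ℤ → ℤ → ℚ_[p] → ℚ_[p] → ℚ_[p] → ℚ_[p] → ℚ_[p]) : Prop :=
  (∀ v1 v2 w1 w2 : ℤ, (v1 ≠ 0 ∨ v2 ≠ 0) → (w1 ≠ 0 ∨ w2 ≠ 0) → Rg a (F v1 v2 w1 w2)) ∧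
  (∀ v1 v2 w1 w2 z1 z2 : ℤ, (v1 ≠ 0 ∨ v2 ≠ 0) → (w1 ≠ 0 ∨ w2 ≠ 0) → (z1 ≠ 0 ∨ z2 ≠ 0) →
    ∀ α β γ δ : ℚ_[p], F v1 v2 w1 w2 α β γ δ + F w1 w2 z1 z2 α β γ δ = F v1 v2 z1 z2 α β γ δ) ∧
  (∀ v1 v2 w1 w2 k : ℤ, (v1 ≠ 0 ∨ v2 ≠ 0) → (w1 ≠ 0 ∨ w2 ≠ 0) → k ≠ 0 →
    ∀ α β γ δ : ℚ_[p], F v1 v2 (k * w1) (k * w2) α β γ δ = F v1 v2 w1 w2 α β γ δ) ∧
  (∀ v1 v2 w1 w2 : ℤ, (v1 ≠ 0 ∨ v2 ≠ 0) → (w1 ≠ 0 ∨ w2 ≠ 0) → ∀ x y z t : ℤ, x * t - y * z = 1 →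
    ∀ α β γ δ : ℚ_[p], F (x * v1 + y * v2) (z * v1 + t * v2) (x * w1 + y * w2) (z * w1 + t * w2)
      α β γ δ = ((eps x y z t : ℤ) : ℚ_[p]) *
        F v1 v2 w1 w2 (α * x + β * z) (α * y + β * t) (γ * x + δ * z) (γ * y + δ * t)) ∧
  (∀ v1 v2 w1 w2 : ℤ, (v1 ≠ 0 ∨ v2 ≠ 0) → (w1 ≠ 0 ∨ w2 ≠ 0) → ∀ α β γ δ : ℚ_[p],
    (κ : ℚ_[p]) * EGf a Φ v1 v2 w1 w2 α β γ δ =
      F (p * v1) v2 (p * w1) w2 α (p * β) (γ / p) δ - F v1 v2 w1 w2 α β γ δ)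

/-- QFB-E. Model: Pool/Agent/Helper98/LV/M_QFb.lean (statement `StQFb`). Proof. For nonzero `v, w` let `Q_D(r, s) = F_D(r, s, r, s)`; by `Rg` it is
`∑_{t ≤ 2a} q_t(D) r^t s^(2a-t)` with unique `q_t(D)` in `ℚ_p`. Put `Ψ x y t = q_t((1,0),(x,y)) / (2a choose t)`
(`0` at the origin), so `q_t(v,w) = (2a choose t) (Ψ_t(w) - Ψ_t(v))` (additivity, for `v = w`: `F = 0`).
`hom`, `inf`: clear. `eqv`: `Q_{gD}(r,s) = eps(g) Q_D(rα+sγ, rβ+sδ)`; write `Ψ_D(X^t)` for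
`Ψ_t(w) - Ψ_t(v)` and extend linearly: `Q_D(r,s) = Ψ_D((rX+s)^(2a))`, so
`Q_{gD}(r,s) = eps(g) Ψ_D((r(αX+β) + s(γX+δ))^(2a)) = eps(g) ∑ (2a choose t) r^t s^(2a-t) Ψ_D((αX+β)^t (γX+δ)^(2a-t))`;
compare the coefficients; for `D = ((1,0), w)` this is `eqv` with constant `Ψ_t(g(1,0))`. `rel`:
`κ EGf_D(r,s,r,s) = F_{uD}(r, ps, r/p, s) - Q_D(r,s)`, `EGf_D(r,s,r,s) = ∑ (2a choose t) r^t s^(2a-t) Φ_t(D)`,
and by bihomogeneity (RGT) `F_{uD}(r, ps, r/p, (ps)/p) = p^(-a) Q_{uD}(r, ps)`: the coefficients of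
`r^t s^(2a-t)`: `κ Φ_t(D) = p^(a-t) Ψ_t(uD) - Ψ_t(D)`, and for `v = (1,0)`: `Ψ_t(u v) = Ψ_t(p,0) = 0`. -/
def SNQFb : Prop := RgT → ∀ (p : ℕ) (_ : Fact p.Prime) (a : ℕ) (κ : ℤ) (Φ : ℤ → ℤ → ℕ → ℤ_[p])
  (F : ℤ → ℤ → ℤ → ℤ → ℚ_[p] → ℚ_[p] → ℚ_[p] → ℚ_[p] → ℚ_[p]), FSysE p a κ Φ F →
  ∃ Ψ : ℤ → ℤ → ℕ → ℚ_[p], L1SE p a κ (fun x y i => (Φ x y i : ℚ_[p])) Ψ

/-- The content of NH-E: `NH` for all `A ≥ 1`. -/
def NHE : Prop := ∀ (N : ℕ) (_ : NeZero N) (A : ℕ) (f : CuspForm (G0 N) (2 * A + 2)), 1 ≤ A →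
  Summable (fun m : ℕ => ‖fcK f m‖ / (m : ℝ) ^ (2 * A + 1)) ∧
  ∀ x : ℝ, HasSum (fun m : ℕ => fcK f m * ((2 * A).factorial / (2 * Real.pi * m) ^ (2 * A + 1) : ℝ) *
    Complex.exp (2 * Real.pi * Complex.I * m * x)) (HK A f x)

/-- NH1. The missing summability for weight `4`: the trivial bound is not enough, use the mean square. Proof (any `A ≥ 1`). `‖f(x+iy)‖ ≤ C y^(-A-1)` (`CuspFormClass.exists_bound`). For `y > 0` the function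
`x ↦ f(x+iy) = ∑ a_m e^(-2πmy) e^(2πimx)` (SKA1, absolutely convergent) is continuous with period `1` and Fourier coefficients `a_m e^(-2πmy)`, so by Bessel's inequality
`∑_{m ≤ X} |a_m|² e^(-4πmy) ≤ ∫_0^1 ‖f(x+iy)‖² dx ≤ C² y^(-2A-2)` (direct proof: with `S = ∑_{m ≤ X} a_m e^(-2πmy) e(mx)`: `0 ≤ ∫ ‖f - S‖² = ∫ ‖f‖² - ∑_{m ≤ X} |a_m|² e^(-4πmy)`, using `∫_0^1 f(x+iy) e(-mx) dx = a_m e^(-2πmy)` and
`∫ ‖S‖² = ∑ |a_m|² e^(-4πmy)`). With `y = 1/X`: `∑_{m ≤ X} |a_m|² ≤ e^(4π) C² X^(2A+2)` for `X ≥ 1`. By Cauchy-Schwarz `∑_{X < m ≤ 2X} |a_m| ≤ X^(1/2) (C' (2X)^(2A+2))^(1/2)`, so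
`∑_{X < m ≤ 2X} |a_m| / m^(2A+1) ≤ C'' X^(1/2 + A + 1 - 2A - 1) = C'' X^(1/2 - A)`; sum over `X = 2^j`: geometric series for `A ≥ 1`. (Another way: `|a_m| / m^(2A+1) ≤ |a_m|² / m^(2A+5/2) + 1 / m^(2A-1/2)`
by the inequality of the means, the second series converges for `A ≥ 1`, and the first by Abel summation or over dyadic blocks: `∑_{X < m ≤ 2X} |a_m|² / m^(2A+5/2) ≤ C' (2X)^(2A+2) / X^(2A+5/2)`.) -/
def SNH1 : Prop := SKA1 → ∀ (N : ℕ) (_ : NeZero N) (A : ℕ) (f : CuspForm (G0 N) (2 * A + 2)), 1 ≤ A →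
  Summable (fun m : ℕ => ‖fcK f m‖ / (m : ℝ) ^ (2 * A + 1))

/-- NH2. The Fourier series of `HK` from the summability, `A ≥ 1`. Proof as `StNH` (model: Pool/Agent/Helper33/LV/M_NH.lean; only the summability was proved there from `2 ≤ A`): `f(x+iy) = ∑ a_m e^(2πimx) e^(-2πmy)` (`SKA1`), and
`∫_0^∞ e^(-2πmy) y^(2A) dy = (2A)!/(2πm)^(2A+1)`; exchange of sum and integral (`MeasureTheory.hasSum_integral_of_summable_integral_norm`); `fcK f 0 = 0`. -/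
def SNH2 : Prop := SKA1 → (∀ (N : ℕ) (_ : NeZero N) (A : ℕ) (f : CuspForm (G0 N) (2 * A + 2)), 1 ≤ A →
  Summable (fun m : ℕ => ‖fcK f m‖ / (m : ℝ) ^ (2 * A + 1))) → NHE

/-- The symmetrised potentials in the coordinate `2z`: `PhiOf 2 a I` of project WK. -/
noncomputable def PhE (a : ℕ) (I : ℤ → ℤ → ℕ → ℂ) : ℤ → ℤ → ℕ → ℂ := fun x y i =>
  ((2 : ℤ) ^ i) • I x (2 * y) i + ((-1 : ℤ) ^ (a + i) * (2 : ℤ) ^ i) • I (-x) (2 * y) i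

/-- `∑_s p^(-as) (H(p^s x/2) - H(-p^s x/2))`, `H = HK a f`. -/
noncomputable def GpE {N : ℕ} {k : ℤ} (p a : ℕ) (f : CuspForm (G0 N) k) (x : ℝ) : ℂ :=
  ∑' s : ℕ, ((p : ℂ) ^ (a * s))⁻¹ * (HK a f ((p : ℝ) ^ s * x / 2) - HK a f (-((p : ℝ) ^ s * x / 2)))

/-- The content of NS-E. -/
def NSE : Prop := ∀ (N p a : ℕ) (_ : NeZero N) (κ : ℤ) (f : CuspForm (G0 N) (2 * a + 2))
  (I Ψ : ℤ → ℤ → ℕ → ℂ), p.Prime → Odd a → IsPotK a f I →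
  (∀ i : ℕ, i ≤ 2 * a → I 1 0 i = 0) → (∀ i : ℕ, i ≤ 2 * a → Homog (cp I i)) →
  L1SE p a κ (PhE a I) Ψ → ∀ r q : ℤ, 0 < q →
  ∑ t ∈ Finset.range (2 * a + 1), ((2 * a).choose t : ℂ) * (-(r : ℂ)) ^ (2 * a - t) * (q : ℂ) ^ t *
    Ψ r q t = -((κ : ℂ) * Complex.I * (2 * (q : ℂ)) ^ (2 * a) * GpE p a f ((r : ℝ) / (q : ℝ)))

/-- NS-E. The series for `Ψ`. Model: Pool/Agent/Helper55/LV/M_NS.lean (statement `StNS`). Proof. `hΨ(r,q)` the left side, `hΦ(r,q)` the same sum for `Φ = PhE a I` (`Φ_t(1,0) = 0`). By KB2 at `r/(2q)`: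
`∑_t (2a choose t) (-r)^(2a-t) (2q)^t I_t(r, 2q) = (-1)^(a+1) i (2q)^(2a) H(r/2q)`, and for the second summand of `PhE`: `(-r)^(2a-t) (-1)^(a+t) = (-1)^a r^(2a-t)`, which gives `-i (2q)^(2a) H(-r/2q)`; so for odd `a`:
`hΦ(r,q) = i (2q)^(2a) (H(r/2q) - H(-r/2q))`. `rel` times `(2a choose t) (-r)^(2a-t) q^t p^(2a-t)`, summed over `t`: `κ p^(2a) hΦ(r,q) = p^a hΨ(pr,q) - p^(2a) hΨ(r,q)`, so
`hΨ(r,q) = p^(-a) hΨ(pr,q) - κ hΦ(r,q)`, and by induction `hΨ(r,q) = -κ ∑_{s<R} p^(-as) hΦ(p^s r,q) + p^(-aR) hΨ(p^R r,q)`. `hΨ(r+q,q) = -hΨ(r,q)` (`eqv` for `(1 1; 0 1)`, `eps = -1`, the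
constant is `0` by evaluation at `(1,0)`; `(y(X+1) - (x+y))^(2a) = (yX-x)^(2a)`), so `hΨ(r+2q,q) = hΨ(r,q)` and for fixed `q` only
finitely many values, bounded, and the last term tends to `0` (`a ≥ 1`); `H` is bounded (KB1, periodic and continuous), so the series converges. -/
def SNNS : Prop := SKB1 → SKB2 → SKB3 → NSE

/-- The content of NR-E. -/
def NRE : Prop := ∀ (N p a : ℕ) (_ : NeZero N) (κ : ℤ) (f : CuspForm (G0 N) (2 * a + 2))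
  (I Ψ : ℤ → ℤ → ℕ → ℂ), κ ≠ 0 → p.Prime → Odd a → IsPotK a f I →
  (∀ i : ℕ, i ≤ 2 * a → I 1 0 i = 0) → (∀ i : ℕ, i ≤ 2 * a → Homog (cp I i)) →
  L1SE p a κ (PhE a I) Ψ → ∃ P : Polynomial ℂ, P.natDegree ≤ 2 * a ∧
    ∀ x : ℝ, x ≠ 0 → (x : ℂ) ^ (2 * a) * GpE p a f (-1 / x) = -GpE p a f x + P.eval (x : ℂ)

/-- NR-E. The transformation under `-1/x`. Model: Pool/Agent/Helper28/LV/M_NR.lean (statement `StNR`; the private lemmas `hP_neg`, `hP_S`, `gp_cont` there). Proof. `eqv` for `S = (0 -1; 1 0)`, `eps = -1`: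
`Ψ_t(-y, x) = -(-1)^t Ψ_(2a-t)(x, y) + c_t`. With `hΨ(x,y) = ∑_t (2a choose t) (-x)^(2a-t) y^t Ψ_t(x,y)` (all
nonzero vectors) `hΨ(-y,x) = -hΨ(x,y) + ∑_t (2a choose t) y^(2a-t) x^t c_t`, and `hΨ(-v) = hΨ(v)` (`Homog`, even
degree). For `r ≠ 0`, `q > 0`: `hΨ(r,q) = -κ i (2q)^(2a) GpE(r/q)` and `hΨ(-q,r) = -κ i (2r)^(2a) GpE(-q/r)` (NS-E, if
`r < 0` use `-v`). Divide by `-κ i (2q)^(2a)`: the claim for rational `x ≠ 0` with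
`P = (-κ i 4^a)⁻¹ ∑_t (2a choose t) c_t X^t`. `GpE` is continuous (uniformly convergent series of continuous
functions, KB1, `H` bounded, `a ≥ 1`), so for all real `x ≠ 0` (`Rat.denseRange_cast`, or closure). -/
def SNNR : Prop := SKB1 → SKB3 → NSE → NRE

/-- The content of NE-E. -/
def NEE : Prop := ∀ (N p a : ℕ) (_ : NeZero N) (f : CuspForm (G0 N) (2 * a + 2)),
  p.Prime → Odd a →
  bco p a f 0 = 0 ∧ bco p a f 1 = fcK f 1 ∧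
  Summable (fun M : ℕ => ‖bco p a f M‖ / (M : ℝ) ^ (2 * a + 1)) ∧
  ∀ x : ℝ, GpE p a f x = -(((2 * a).factorial : ℂ) * Complex.I *
    (EE (2 * a) (bco p a f) ((x : ℂ) / 2) - EE (2 * a) (bco p a f) (-(x : ℂ) / 2)))

/-- NE-E. Model: Pool/Agent/Helper71/LV/M_NE.lean (statement `StNE`). Proof. With `c_m = a_m (2a)!/(2πm)^(2a+1)` (NHE) and `H(x) = ∑ c_m e(mx)`, `∑ |c_m| < ∞`:
`∑_s p^(-as) H(p^s x/2) = ∑_s ∑_m p^(-as) c_m e(m p^s x/2) = ∑_M (∑_{p^s ∣ M} p^(-as) c_(M/p^s)) e(Mx/2)` (absolutely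
convergent double series; reindex `(s, m) ↦ M = p^s m`: for `M ≥ 1` the pairs are those with `p^s ∣ M`,
`s ≤ M`; `c_0 = 0`), and `p^(-as) c_(M/p^s) = p^((a+1)s) a_(M/p^s) (2a)!/(2πM)^(2a+1)`. Finally
`(2πiM)^(2a+1) = -i (2πM)^(2a+1)` (`a` odd). -/
def SNNE : Prop := SKA1 → NHE → NEE

/-- The content of CA5-E. -/
def CA5E : Prop := ∀ (n : ℕ) (b : ℕ → ℂ) (P : Polynomial ℂ), Even n → P.natDegree ≤ n → b 0 = 0 →
  Summable (fun M : ℕ => ‖b M‖ / (M : ℝ) ^ (n + 1)) →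
  (∀ x : ℝ, x ≠ 0 → (x : ℂ) ^ n * (EE n b (-1 / (2 * (x : ℂ))) - EE n b (1 / (2 * (x : ℂ)))) =
    -(EE n b ((x : ℂ) / 2) - EE n b (-(x : ℂ) / 2)) + P.eval (x : ℂ)) →
  ∀ z : ℂ, 0 < z.im → FF b (-1 / (4 * z)) = -((2 * z) ^ (n + 2) * FF b z)

/-- CA5-E. The gluing argument. Model: Pool/Agent/Helper92/LV/M_CA5.lean (statement `StCA5`). Proof. Let `E(z) = EE n b (z/2)`, and `R(z) = E(z) + z^n E(-1/z)` for `Im z ≥ 0`, `z ≠ 0`,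
`R(z) = E(-z) + z^n E(1/z) + P(z)` for `Im z < 0`. The second formula is continuous on
`Im z ≤ 0`, `z ≠ 0` and equals the first for real `z ≠ 0` (hypothesis), so `R` is continuous away from
`0`; it is differentiable off the real axis, so by CA2 on `{0}ᶜ`. `‖R z‖ ≤ C (1+‖z‖)^n` (CA1, `P` of degree
`≤ n`). CA3: the `(n+1)`-st derivative of `R` is `0`; on the upper half plane it is (CA1, CA4, `E^(n+1)(z) = 2^(-n-1) FF b (z/2)`)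
`2^(-n-1) (F(z/2) + z^(-n-2) F(-1/(2z)))`, `F = FF b`. Put `z = 2w`. -/
def SNCA5 : Prop := CA1 → CA2 → CA3 → CA4 → CA5E

/-- MF-E. Construction of a cusp form of level `4`. Model: Pool/Agent/Helper63/LV/M_MF.lean (statement `MF`). Proof. Let `h(x) = FF b (x/2)` on the upper half plane, holomorphic. `h(x+1) = -h(x)` (only odd `M` occur), `h(-1/x) = -x^(2a+2) h(x)`
(hypothesis at `z = x/2`). So `h|g = eps(g) h` in weight `k = 2a+2` for all `g` in `SL₂(ℤ)` (generators `S`, `T`, `eps S = eps T = -1`, `eps_mul`). `g(w) = FF b w = h(2w)`. For `γ = (α β; 4γ' δ)` in `Γ₀(4)`: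
`2 γ(w) = κ(2w)` with `κ = (α 2β; 2γ' δ)`, `eps κ = 1`, so `g(γ w) = (4γ' w + δ)^k g(w)`. Cusps: for `γ = (α β; γ' δ)` in `SL₂(ℤ)`: if `γ'` is even then `2 γ(w) = κ(2w)` with `κ = (α 2β; γ'/2 δ)` and
`(g|γ)(w) = eps(κ) h(2w)`; if `γ'` is odd then `2 γ(w) = κ((w+δ)/2)` with `κ = (2α, β - αδ; γ', δ(1-γ')/2)` in `SL₂(ℤ)` and `(g|γ)(w) = 2^(-k) eps(κ) h((w+δ)/2)`. Both tend to `0` for `Im w → ∞`, as `h(x) → 0` for
`Im x → ∞` (`b 0 = 0`, polynomial growth of `b`). The coefficients: uniqueness of the `q`-expansion, as in the model. -/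
def SNMF : Prop := ∀ (a : ℕ) (b : ℕ → ℂ), b 0 = 0 → (∀ M : ℕ, Even M → b M = 0) →
  Summable (fun M : ℕ => ‖b M‖ / (M : ℝ) ^ (2 * a + 1)) →
  (∀ z : ℂ, 0 < z.im → FF b (-1 / (4 * z)) = -((2 * z) ^ (2 * a + 2) * FF b z)) →
  ∃ g : CuspForm (G0 4) (2 * a + 2), ∀ M : ℕ, fcK g M = b M

/-- NX-E. The Hecke relations of the coefficients; the same proof as `NX` (model: Pool/Agent/Helper21/LV/M_NX.lean), for `g` of any level. -/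
def SNNX : Prop := SKA1 → ∀ (p a N N' : ℕ) (_ : NeZero N) (f : CuspForm (G0 N) (2 * a + 2))
  (g : CuspForm (G0 N') (2 * a + 2)), p.Prime → (∀ M : ℕ, fcK g M = bco p a f M) →
  ∀ l : ℕ, l.Prime → l ≠ p → HeckeEigK f l (fcK f l) → HeckeEigK g l (fcK f l)

/-- EV0. The even coefficients vanish. Proof. `f(z) + f(z + 1/2) = ∑ a_m (1 + (-1)^m) e(mz)` (SKA1), so `∑_{m even} a_m e(mz) = 0` for all `z`; uniqueness of the coefficients: multiply by `e(-Mx)`, `z = x + iy`, and integrate over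
`x` from `0` to `1` (`hasSum_integral_of_summable_norm` or the uniqueness in Pool/Agent/Helper79/WK/M_KH1.lean, Pool/Agent/Helper63/LV/M_MF.lean: two power series in `q = e(z)` which agree for `0 < |q| < 1`
have the same coefficients, `HasFPowerSeriesAt.eq_formalMultilinearSeries` or similar). -/
def SNEv : Prop := SKA1 → ∀ (N : ℕ) (_ : NeZero N) (k : ℤ) (f : CuspForm (G0 N) k),
  (∀ z : ℂ, 0 < z.im → ∑ i ∈ Finset.range 2, fzK f (z + i / 2) = 0) → ∀ M : ℕ, Even M → fcK f M = 0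

end Pool.Agent.Helper79.TLN
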