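import Pool.Agent.Helper79.TLN.M_AN
import Pool.Agent.Helper28.TLV.GenV
import Pool.Agent.Helper22.TLN.M_NX
import Pool.Agent.Helper36.TLN.M_MF
import Pool.Agent.Helper44.TLN.M_NS
import Pool.Agent.Helper53.TLN.M_NH2
import Pool.Agent.Helper55.TLN.M_CA5
import Pool.Agent.Helper6.TLN.M_DC
import Pool.Agent.Helper60.TLN.M_NH1
import Pool.Agent.Helper60.TLN.M_QFa
import Pool.Agent.Helper7.TLN.M_Ev
import Pool.Agent.Helper70.TLN.M_FG
import Pool.Agent.Helper70.TLN.M_NR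
import Pool.Agent.Helper85.TLN.M_NE
import Pool.Agent.Helper99.TLN.M_QFb
import Pool.Agent.Helper60.LV.M_CA1
import Pool.Agent.Helper97.LV.M_CA2
import Pool.Agent.Helper4.LV.M_CA3
import Pool.Agent.Helper76.LV.M_CA4

/-!
# Level `4p` in the weights divisible by four, and all levels `4 p^n`
-/

set_option autoImplicit false

open Pool.Agent.Helper14.CV (G0 Homog EqC act StFar)
open Pool.Agent.Helper28.WK
open Pool.Agent.Helper14.WK

namespace Pool.Agent.Helper79.TLN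

open Pool.Agent.Helper28.LV
open Pool.Agent.Helper28.TL
open Pool.Agent.Helper4.TL

/-- Level `4p`, weights divisible by four. -/
theorem gen1o (p : ℕ) (hp : p.Prime) (hp2 : p ≠ 2) (κ : ℤ) (hκ : κ ≠ 0) (hTA : TAE p κ)
    (A : ℕ) (hodd : Odd A) (hne : NeZero (4 * p ^ 1)) (hk : 0 < (2 * A + 2 : ℤ))
    (f : CuspForm (G0 (4 * p ^ 1)) (2 * A + 2)) (hf : IsNewN f)
    (hε : RootOneK hk f) : LanK hk f (1 / 2) ≠ 0 := by
  intro hL
  obtain ⟨a4, kmod, p1, p2, h3, a8, n2, n3, p5, p6, p4, a5, kin⟩ := Pool.Agent.Helper28.TLV.ana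
  have a1 := Pool.Agent.Helper63.WK.hKA1
  have a1b := Pool.Agent.Helper92.WK.hKA1b a1
  have ke := Pool.Agent.Helper6.WK.hKE a1
  have b1 := Pool.Agent.Helper82.WK.hKB1
  have b2 := Pool.Agent.Helper81.WK.hKB2 a1 a1b ke b1
  have b3 := Pool.Agent.Helper90.WK.hKB3 a1 b1
  obtain ⟨I, hI, hD⟩ := Pool.Agent.Helper28.TLV.hBrgV a4 kmod p1 p2 h3 a8 n2 n3 p5 p6 p4 p A 1 hp hne hk f hf hε
  have h0 := a5 (4 * p ^ 1) hne A hk f I hI hL
  have hWS := Pool.Agent.Helper85.TLV.hLTr p A 1 I hp hp2 hD h0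
  have far := Pool.Agent.Helper38.CV.hFar
  obtain ⟨Ψ, hΨ⟩ := Pool.Agent.Helper6.TLN.hDC (Pool.Agent.Helper70.TLN.hFG far) far
    Pool.Agent.Helper44.TLV.hLMap Pool.Agent.Helper53.TLV.hLDen p ⟨hp⟩ A (3 * κ)
    (fun Φ h => hQPE Pool.Agent.Helper36.TLV.hLLa Pool.Agent.Helper81.TLV.hLLb Pool.Agent.Helper28.TLV.uiT
      Pool.Agent.Helper29.TLV.hLPol Pool.Agent.Helper28.TLV.msT Pool.Agent.Helper34.LV.hRgT
      Pool.Agent.Helper51.LV.hRgU Pool.Agent.Helper47.LV.hEG Pool.Agent.Helper28.TLV.egT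
      Pool.Agent.Helper60.TLN.hQFa Pool.Agent.Helper99.TLN.hQFb Pool.Agent.Helper46.TLV.hLW1
      Pool.Agent.Helper61.TLV.hLW2 Pool.Agent.Helper7.TLV.hLW4 p ⟨hp⟩ κ hp2 hTA A Φ h) (PhiOf 2 A I) hWS
  have nh := Pool.Agent.Helper53.TLN.hNH2 a1 (Pool.Agent.Helper60.TLN.hNH1 a1)
  have ns := Pool.Agent.Helper44.TLN.hNS b1 b2 b3
  have nr := Pool.Agent.Helper70.TLN.hNR b1 b3 ns
  have ne := Pool.Agent.Helper85.TLN.hNE a1 nh
  have ca5 := Pool.Agent.Helper55.TLN.hCA5 Pool.Agent.Helper60.LV.hCA1 Pool.Agent.Helper97.LV.hCA2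
    Pool.Agent.Helper4.LV.hCA3 Pool.Agent.Helper76.LV.hCA4
  have hp0 : p ^ 1 ≠ 0 := pow_ne_zero _ hp.ne_zero
  have t2a := trace_zero n2 n3 2 (2 * p ^ 1) Nat.prime_two (dvd_mul_right _ _)
    (mul_ne_zero two_ne_zero hp0) A (4 * p ^ 1) (by ring) f hf
  have t2b := shift_zero a8 2 (2 * p ^ 1) Nat.prime_two
    (mul_ne_zero two_ne_zero hp0) A (4 * p ^ 1) (by ring) hk f t2a hε
  exact hANE nr ne ca5 Pool.Agent.Helper36.TLN.hMF Pool.Agent.Helper22.TLN.hNX Pool.Agent.Helper7.TLN.hEv a1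
    p hp hp2 (3 * κ) (mul_ne_zero (by norm_num) hκ) A hodd hne f hf (fun z hz => by simpa using t2b z hz)
    I Ψ hI hD.inf hD.hom hΨ

/-- Theorem A for twisted symbols and the odd prime `p` implies: the central values of all newforms of weight `2A+2 ≥ 4`, level `4 p^n`, `n ≥ 0`, root number `+1` are not zero. -/
theorem genAllE (p : ℕ) (hp : p.Prime) (hp2 : p ≠ 2) (κ : ℤ) (hκ : κ ≠ 0) (hTA : TAE p κ)
    (A n : ℕ) (hA : 1 ≤ A) (hne : NeZero (4 * p ^ n)) (hk : 0 < (2 * A + 2 : ℤ))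
    (f : CuspForm (G0 (4 * p ^ n)) (2 * A + 2)) (hf : IsNewN f)
    (hε : RootOneK hk f) : LanK hk f (1 / 2) ≠ 0 := by
  by_cases h : n ≠ 1 ∨ Even A
  · exact Pool.Agent.Helper28.TLV.genV p hp hp2 κ hκ hTA A n hA h hne hk f hf hε
  · rw [not_or, not_not, Nat.not_even_iff_odd] at h
    obtain ⟨rfl, hodd⟩ := h
    exact gen1o p hp hp2 κ hκ hTA A hodd hne hk f hf hε

end Pool.Agent.Helper79.TLN
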