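import Pool.Agent.Helper28.LV.M_GenA
import Pool.Agent.Helper28.WK.M_ThmA
import Pool.Agent.Helper78.W5.Asm
import Pool.Agent.Helper78.WK3.M_All
import Pool.Agent.Helper79.S7.Core7
import Pool.Agent.Helper79.TLN.Gen1o

/-!
# All levels `p^n` (`p = 2, 3, 5, 7`) and `4 p^n` with one definition of newforms
-/

set_option autoImplicit false

namespace Pool.Agent.Helper79.TLN

open Pool.Agent.Helper14.CV (G0)
open Pool.Agent.Helper14.WK Pool.Agent.Helper28.WK Pool.Agent.Helper28.LV Pool.Agent.Helper28.TL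

/-- A newform of prime power level (or level one) in the sense of `IsNewN` is one in the sense of `IsNewformA`. -/
theorem newA_of (p n : ℕ) (hp : p.Prime) {k : ℤ} (f : CuspForm (G0 (p ^ n)) k) (h : IsNewN f) :
    IsNewformA p n f := by
  rcases Nat.eq_zero_or_pos n with rfl | hn
  · have h1 : ∀ l : ℕ, l.Prime → ¬ l ∣ p ^ 0 := by
      intro l hl hd
      rw [pow_zero] at hd
      exact hl.one_lt.ne' (Nat.dvd_one.1 hd)
    refine ⟨h.normalised, fun l hl _ => h.hecke l hl (h1 l hl), fun _ => h.hecke p hp (h1 p hp), ?_, ?_⟩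
    · intro h0
      exact absurd rfl h0
    · intro h0
      exact absurd rfl h0
  · have h1 := (IsNewN.iff_primePow p n hp hn f).1 h
    exact ⟨h1.normalised, h1.hecke, fun h0 => absurd h0 (by omega), fun _ => h1.hecke_p, fun _ => h1.new⟩

/-- Theorem A for the primes `2, 3, 5, 7`. -/
theorem tapAll (p : ℕ) (hp : p ∈ ({2, 3, 5, 7} : Finset ℕ)) : p.Prime ∧ TAp p := by
  simp only [Finset.mem_insert, Finset.mem_singleton] at hp
  rcases hp with rfl | rfl | rfl | rfl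
  · exact ⟨Nat.prime_two, tap2⟩
  · exact ⟨Nat.prime_three, Pool.Agent.Helper78.WK3.hAll⟩
  · exact ⟨Nat.prime_five, Pool.Agent.Helper78.W5.core5.2⟩
  · exact ⟨by norm_num, Pool.Agent.Helper79.S7.core7.2⟩

/-- Prime power levels. -/
theorem valPow (p : ℕ) (hp : p ∈ ({2, 3, 5, 7} : Finset ℕ)) (n : ℕ) (k : ℤ) (hk : 0 < k) (heven : Even k)
    (h4 : 4 ≤ k) (hne : NeZero (p ^ n)) (f : CuspForm (G0 (p ^ n)) k) (hf : IsNewN f)
    (hε : RootOneK hk f) : LanK hk f (1 / 2) ≠ 0 := by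
  obtain ⟨hpp, hT⟩ := tapAll p hp
  obtain ⟨A, rfl⟩ : ∃ A : ℕ, k = 2 * A + 2 := by
    obtain ⟨r, hr⟩ := heven
    exact ⟨(r - 1).toNat, by omega⟩
  exact genAll p hpp hT A n (by omega) inferInstance hk f (newA_of p n hpp f hf) hε

/-- Levels `4 p^n`, from Theorem A for twisted symbols. -/
theorem valFour (p : ℕ) (hp : p.Prime) (hp2 : p ≠ 2) (hTA : Pool.Agent.Helper79.TL.TAE p) (n : ℕ) (k : ℤ)
    (hk : 0 < k) (heven : Even k) (h4 : 4 ≤ k) (hne : NeZero (4 * p ^ n)) (f : CuspForm (G0 (4 * p ^ n)) k)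
    (hf : IsNewN f) (hε : RootOneK hk f) : LanK hk f (1 / 2) ≠ 0 := by
  obtain ⟨A, rfl⟩ : ∃ A : ℕ, k = 2 * A + 2 := by
    obtain ⟨r, hr⟩ := heven
    exact ⟨(r - 1).toNat, by omega⟩
  exact genAllE p hp hp2 4 (by norm_num) (Pool.Agent.Helper28.TLW.tae_of p hTA) A n (by omega) inferInstance hk f hf hε

end Pool.Agent.Helper79.TLN
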