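import Pool.Agent.Helper79.TLN.StN2

/-!
# Project TL, level `4p`, `a` odd: the analytic part assembled
-/

set_option autoImplicit false

open Pool.Agent.Helper14.CV (G0 Homog EqC act StFar)
open Pool.Agent.Helper28.WK
open Pool.Agent.Helper14.WK

namespace Pool.Agent.Helper79.TLN

open Pool.Agent.Helper28.LV
open Pool.Agent.Helper28.TL
open Pool.Agent.Helper4.TL

private theorem bco_even {p a N : ℕ} (hp : p.Prime) (hp2 : p ≠ 2) {k : ℤ} (f : CuspForm (G0 N) k)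
    (h : ∀ M : ℕ, Even M → fcK f M = 0) (M : ℕ) (hM : Even M) : bco p a f M = 0 := by
  unfold bco
  refine Finset.sum_eq_zero fun s _ => ?_
  split_ifs with hs
  · obtain ⟨c, hc⟩ := hs
    have hpp : 0 < p ^ s := pow_pos hp.pos s
    have hodd : ¬ Even (p ^ s) := Nat.not_even_iff_odd.2 ((hp.odd_of_ne_two hp2).pow)
    have hcE : Even c := by
      rw [hc, Nat.even_mul] at hM
      exact hM.resolve_left hodd
    rw [hc, Nat.mul_div_cancel_left c hpp, h c hcE, mul_zero]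
  · rfl

/-- The analytic part: a twisted symbol `Ψ` of level one gives a cusp form of level four. -/
theorem hANE (nr : NRE) (ne : NEE) (ca5 : CA5E) (mf : SNMF) (nx : SNNX) (ev : SNEv) (a1 : SKA1)
    (p : ℕ) (hp : p.Prime) (hp2 : p ≠ 2) (κ : ℤ) (hκ : κ ≠ 0) (A : ℕ) (hA : Odd A)
    (hne : NeZero (4 * p ^ 1)) (f : CuspForm (G0 (4 * p ^ 1)) (2 * A + 2)) (hf : IsNewN f)
    (hev : ∀ z : ℂ, 0 < z.im → ∑ i ∈ Finset.range 2, fzK f (z + i / 2) = 0)
    (I Ψ : ℤ → ℤ → ℕ → ℂ) (hI : IsPotK A f I) (hinf : ∀ i : ℕ, i ≤ 2 * A → I 1 0 i = 0)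
    (hhom : ∀ i : ℕ, i ≤ 2 * A → Homog (cp I i)) (hL : L1SE p A κ (PhE A I) Ψ) : False := by
  obtain ⟨P, hP, hrel⟩ := nr (4 * p ^ 1) p A hne κ f I Ψ hκ hp hA hI hinf hhom hL
  obtain ⟨b0, b1, bs, hG⟩ := ne (4 * p ^ 1) p A hne f hp hA
  set c : ℂ := ((2 * A).factorial : ℂ) * Complex.I with hc
  have hc0 : c ≠ 0 := mul_ne_zero (by exact_mod_cast (Nat.factorial_ne_zero _)) Complex.I_ne_zero
  have hF := ca5 (2 * A) (bco p A f) (Polynomial.C (-c⁻¹) * P) ⟨A, by ring⟩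
    ((Polynomial.natDegree_C_mul_le _ _).trans hP) b0 bs (by
      intro x hx
      have hxc : (x : ℂ) ≠ 0 := by exact_mod_cast hx
      have h1 := hrel x hx
      rw [hG x, hG (-1 / x)] at h1
      rw [Polynomial.eval_mul, Polynomial.eval_C]
      have e1 : ((-1 / x : ℝ) : ℂ) / 2 = -1 / (2 * (x : ℂ)) := by
        push_cast
        field_simp
      have e2 : -((-1 / x : ℝ) : ℂ) / 2 = 1 / (2 * (x : ℂ)) := by
        push_cast
        field_simp
      rw [e1, e2] at h1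
      refine mul_left_cancel₀ hc0 ?_
      have h2 : c * (-c⁻¹ * P.eval (x : ℂ)) = -P.eval (x : ℂ) := by
        rw [neg_mul, mul_neg, ← mul_assoc, mul_inv_cancel₀ hc0, one_mul]
      rw [mul_add, h2]
      linear_combination -h1)
  have hcE : ∀ M : ℕ, Even M → fcK f M = 0 := ev a1 (4 * p ^ 1) hne _ f hev
  obtain ⟨g, hg⟩ := mf A (bco p A f) b0 (bco_even hp hp2 f hcE) bs hF
  have hHg : ∀ l : ℕ, l.Prime → ¬ l ∣ 4 * p ^ 1 → HeckeEigK g l (fcK f l) := fun l hl hlN =>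
    nx a1 p A (4 * p ^ 1) 4 hne f g hp hg l hl (by
      rintro rfl
      exact hlN (Dvd.intro_left 4 (by ring))) (hf.hecke l hl hlN)
  have hg0 : g = 0 := hf.new p 4 hp (by ring) g hHg
  have h1 : fcK g 1 = 1 := by rw [hg 1, b1, hf.normalised]
  rw [hg0] at h1
  have h2 : fcK (0 : CuspForm (G0 4) (2 * A + 2)) 1 = 0 := by
    unfold fcK
    have h4 : ((0 : CuspForm (G0 4) (2 * A + 2)) : UpperHalfPlane → ℂ) = 0 := rfl
    rw [h4]
    simp [UpperHalfPlane.qExpansion_zero]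
  rw [h2] at h1
  exact zero_ne_one h1

end Pool.Agent.Helper79.TLN
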