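import Pool.Agent.Helper79.TLN.StN
import Pool.Agent.Helper28.TL.StV

/-!
# Project TL, low levels: level `4p`, `a` odd: statements of the `p`-adic part

Statements which use `Helper28/TL/StV.lean` (`WSNE`, `MSE`, `EGE`, `VLMap`, `VLDen`).
-/

set_option autoImplicit false

open Pool.Agent.Helper14.CV (G0 Homog EqC act StFar)
open Pool.Agent.Helper28.WK
open Pool.Agent.Helper14.WK

namespace Pool.Agent.Helper79.TLN

open Pool.Agent.Helper28.LV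
open Pool.Agent.Helper28.TL
open Pool.Agent.Helper4.TL

/-- QFA-E. Model: Pool/Agent/Helper7/LV/M_QFa.lean (statement `StQFa`; see also `VF1` in `StV.lean`, steps (0), (2), (3)). Proof. (0) `Nc a c ψ ≈ 0` for all even `c`: `(Nc a c ψ)(u v) = (Nc a (p c) (ψ∘u))(v)`, constant, and
`(x, y)` is up to a factor `u (x, p y)`. MSE gives `F_D` in `Rg` with `eps(g) (ψ(gw) - ψ(gv)) = F_D(g)` for all integral `g` of determinant one. All identities: RGU (for integral `g` in `Γ₀(p)`, the last one, or in `SL₂(ℤ)`, the others), both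
sides being `Rg` (RGT). Fourth: `F_{hD}(g) = eps(g) ψ(g h D) = eps(h) eps(gh) ψ(ghD) = eps(h) F_D(gh)` (`eps_mul`, `eps_sq`). Fifth: for integral `g = (α β; γ δ)` in `Γ₀(p)`: `u g = g' u`, `g' = (α pβ; γ/p δ)` integral,
`eps g' = eps g` (`p` odd, `eps_mod`), `F_{uD}(g') = eps(g) ψ(u g D)`, and `κ eps(g) G(g D) = eps(g) (ψ(u g D) - ψ(g D))`, `G = cp Φ a` (EGE with `e = eps g`). -/
def SNQFa : Prop := MSE → RgT → RgU → EG → EGE → ∀ (p : ℕ) (_ : Fact p.Prime) (κ : ℤ) (a : ℕ)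
  (Φ : ℤ → ℤ → ℕ → ℤ_[p]) (ψ : ℤ → ℤ → ℤ_[p]), p ≠ 2 →
  (∀ α β γ δ : ℤ, α * δ - β * γ = 1 → (p : ℤ) ∣ γ →
    EqC (act α β γ δ (cp Φ a)) (eps α β γ δ • pr Φ ((Polynomial.C α * Polynomial.X + Polynomial.C β) ^ a *
      (Polynomial.C γ * Polynomial.X + Polynomial.C δ) ^ a))) →
  Homog ψ → (∀ M : ℕ, 3 ≤ M → SymE p M M (redP M ψ)) →
  EqC (act p 0 0 1 ψ - ψ) (κ • cp Φ a) →
  (∀ h : ℤ, 2 ∣ h → EqC (Nb a h ψ) 0) → (∀ c : ℤ, 2 * (p : ℤ) ∣ c → EqC (Nc a c (act p 0 0 1 ψ)) 0) →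
  ∃ F : ℤ → ℤ → ℤ → ℤ → ℚ_[p] → ℚ_[p] → ℚ_[p] → ℚ_[p] → ℚ_[p], FSysE p a κ Φ F

/-- The content of FG-E. -/
def FGE : Prop := ∀ (p a n : ℕ) (R : Type) (_ : AddCommGroup R) (Φ : ℤ → ℤ → ℕ → R), p.Prime →
  WSNE p a n Φ → ∃ S : Finset R, ∀ i : ℕ, i ≤ 2 * a → ∀ x y : ℤ, (x ≠ 0 ∨ y ≠ 0) →
    Φ x y i - Φ 1 0 i ∈ AddSubgroup.closure (S : Set R)

/-- FG-E. Finite generation (model Pool/Agent/Helper61/LV/M_FG.lean, `StFG`; a sign does not change membership in a subgroup). -/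
def SNFG : Prop := StFar → FGE

/-- DC-E. Descent to `ℂ` (model Pool/Agent/Helper9/LV/M_DC.lean, `StDC`). -/
def SNDC : Prop := FGE → StFar → VLMap → VLDen → ∀ (p : ℕ) (_ : Fact p.Prime) (a : ℕ) (κ : ℤ),
  (∀ Φ : ℤ → ℤ → ℕ → ℤ_[p], WSNE p a 1 Φ →
    ∃ Ψ : ℤ → ℤ → ℕ → ℚ_[p], L1SE p a κ (fun x y i => (Φ x y i : ℚ_[p])) Ψ) →
  ∀ Φ : ℤ → ℤ → ℕ → ℂ, WSNE p a 1 Φ → ∃ Ψ : ℤ → ℤ → ℕ → ℂ, L1SE p a κ Φ Ψ

/-- The `p`-adic part: assembly of the statements above (model `hQP` of Pool/Agent/Helper28/LV/M_Ev.lean). -/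
theorem hQPE (la : VLLa) (lb : VLLb) (ui : Pool.Agent.Helper79.TL.UIpE) (pol : VLPol) (ms : MSE) (rt : RgT)
    (ru : RgU) (eg : EG) (ege : EGE) (qfa : SNQFa) (qfb : SNQFb) (w1 : VLW1) (w2 : VLW2) (w4 : VLW4) (p : ℕ)
    (hp : Fact p.Prime) (κ : ℤ) (hp2 : p ≠ 2) (hTA : TAE p κ) (a : ℕ) (Φ : ℤ → ℤ → ℕ → ℤ_[p])
    (hW : WSNE p a 1 Φ) :
    ∃ Ψ : ℤ → ℤ → ℕ → ℚ_[p], L1SE p a (3 * κ) (fun x y i => (Φ x y i : ℚ_[p])) Ψ := by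
  obtain ⟨ψ, hψ1, hψ2, hψ3⟩ := lb la ui p hp κ hp2 hTA 1 (cp Φ a) (hW.hom a (by omega))
    (fun M hM => w1 p hp a 1 Φ hW M (by omega)) hW.fr
    hW.st (fun M hM ls hls => w4 p hp a 1 Φ hW M (by omega) ls hls)
  obtain ⟨hb, hc⟩ := w2 p hp a 1 Φ hW
  obtain ⟨hb', hc'⟩ := pol p hp (3 * κ) a 1 (cp Φ a) ψ hp2 (hW.hom a (by omega)) hψ1 hψ2 hψ3 hb hc
  obtain ⟨F, hF⟩ := qfa ms rt ru eg ege p hp (3 * κ) a Φ ψ hp2 (by
    intro α β γ δ hd hg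
    have h := hW.eqv α β γ δ hd (by simpa using hg) a (by omega)
    rwa [show 2 * a - a = a by omega] at h) hψ1 (fun M hM => by simpa using hψ2 M hM) hψ3
    hb' (fun c h => hc' c (by simpa using h))
  exact qfb rt p hp a (3 * κ) Φ F hF

end Pool.Agent.Helper79.TLN
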